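import Pool.Agent.Helper42.KS.Goals

set_option autoImplicit false

namespace Pool.Agent.Helper42.KS.PkINT

open MeasureTheory
open scoped ENNReal NNReal

lemma ee_add (s t : ℝ) : ee (s + t) = ee s * ee t := by
  unfold ee
  rw [← Complex.exp_add]
  congr 1
  push_cast
  ring

lemma ee_zero : ee 0 = 1 := by simp [ee]

lemma ee_sum {ι : Type*} (s : Finset ι) (f : ι → ℝ) : ee (∑ i ∈ s, f i) = ∏ i ∈ s, ee (f i) := by
  classical
  induction s using Finset.induction_on with
  | empty => simp [ee_zero]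
  | insert a s ha ih => rw [Finset.sum_insert ha, Finset.prod_insert ha, ee_add, ih]

lemma ee_cont : Continuous ee := by
  unfold ee
  fun_prop

lemma ee_int (n : ℤ) : ee (n : ℝ) = 1 := by
  unfold ee
  rw [Complex.exp_eq_one_iff]
  refine ⟨n, ?_⟩
  push_cast
  ring

lemma int_ee (D : ℤ) : ∫ a in Set.Icc (0 : ℝ) 1, ee (a * (D : ℝ)) = if D = 0 then 1 else 0 := by
  rw [integral_Icc_eq_integral_Ioc, ← intervalIntegral.integral_of_le zero_le_one]
  by_cases hD : D = 0
  · subst hD
    simp [ee_zero]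
  · rw [if_neg hD]
    have hc : ((2 * Real.pi * D : ℝ) * Complex.I : ℂ) ≠ 0 := by
      simp [hD, Real.pi_ne_zero]
    have h1 : ∀ a : ℝ, ee (a * (D : ℝ)) = Complex.exp (((2 * Real.pi * D : ℝ) * Complex.I : ℂ) * a) := by
      intro a
      unfold ee
      congr 1
      push_cast
      ring
    simp_rw [h1]
    rw [integral_exp_mul_complex hc]
    have h2 : Complex.exp (((2 * Real.pi * D : ℝ) * Complex.I : ℂ) * ((1 : ℝ) : ℂ)) = 1 := by
      rw [Complex.exp_eq_one_iff]
      refine ⟨D, ?_⟩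
      push_cast
      ring
    rw [h2]
    simp

/-- orthogonality on the cube -/
lemma int_cube {l : ℕ} (D : Fin l → ℤ) :
    ∫ α in Set.pi Set.univ (fun _ : Fin l => Set.Icc (0 : ℝ) 1), ∏ i, ee (α i * (D i : ℝ)) =
      if ∀ i, D i = 0 then 1 else 0 := by
  have h : (volume : Measure (Fin l → ℝ)).restrict
      (Set.pi Set.univ (fun _ : Fin l => Set.Icc (0 : ℝ) 1)) =
      Measure.pi (fun _ => (volume : Measure ℝ).restrict (Set.Icc (0 : ℝ) 1)) := by
    rw [volume_pi]
    exact Measure.restrict_pi_pi (fun _ => (volume : Measure ℝ)) (fun _ => Set.Icc (0 : ℝ) 1)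
  rw [h, integral_fintype_prod_eq_prod (fun i (a : ℝ) => ee (a * (D i : ℝ)))]
  simp_rw [int_ee]
  by_cases hD : ∀ i, D i = 0
  · rw [if_pos hD]
    simp [hD]
  · rw [if_neg hD]
    push Not at hD
    obtain ⟨i, hi⟩ := hD
    exact Finset.prod_eq_zero (Finset.mem_univ i) (by simp [hi])

theorem thm : G_INT := by
  classical
  intro k R l d y
  set Q : Set (Fin l → ℝ) := Set.pi Set.univ (fun _ : Fin l => Set.Icc (0 : ℝ) 1) with hQ
  have hQc : IsCompact Q := isCompact_univ_pi (fun _ => isCompact_Icc)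
  -- the set of admissible x
  set A : Fin d → Finset ℤ := fun ν => (Finset.Ico 0 (R : ℤ)).filter (fun x => ∀ i, y i ν ≤ x) with hA
  set D : (Fin d → ℤ) → Fin l → ℤ := fun x i =>
    ∑ ν, ((x ν - y i.succ ν) ^ k - (x ν - y 0 ν) ^ k) with hD
  have hprod : ∀ α : Fin l → ℝ, ∏ ν, Wv k R l y α ν =
      ∑ x ∈ Fintype.piFinset A, ∏ i, ee (α i * (D x i : ℝ)) := by
    intro α
    have h1 : ∏ ν, Wv k R l y α ν = ∏ ν, ∑ x ∈ A ν,
        ee (∑ i : Fin l, α i * (((x - y i.succ ν) ^ k - (x - y 0 ν) ^ k : ℤ) : ℝ)) := rfl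
    rw [h1, Finset.prod_univ_sum]
    apply Finset.sum_congr rfl
    intro x hx
    rw [← ee_sum, ← ee_sum, Finset.sum_comm]
    congr 1
    apply Finset.sum_congr rfl
    intro i hi
    rw [← Finset.mul_sum]
    congr 1
    rw [hD]
    push_cast
    rfl
  have hint : ∀ x, Integrable (fun α : Fin l → ℝ => ∏ i, ee (α i * (D x i : ℝ)))
      (volume.restrict Q) := by
    intro x
    have hc : Continuous (fun α : Fin l → ℝ => ∏ i, ee (α i * (D x i : ℝ))) := by
      apply continuous_finset_prod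
      intro i _
      exact ee_cont.comp ((continuous_apply i).mul continuous_const)
    exact hc.continuousOn.integrableOn_compact hQc
  have hI : ∫ α in Q, ∏ ν, Wv k R l y α ν = ((eqd k R l y).card : ℂ) := by
    simp_rw [hprod]
    rw [integral_finset_sum _ (fun x _ => hint x)]
    simp_rw [hQ, int_cube]
    rw [Finset.sum_ite, Finset.sum_const_zero, add_zero, Finset.sum_const, nsmul_eq_mul, mul_one]
    congr 2
    ext x
    simp only [eqd, box, Finset.mem_filter, Fintype.mem_piFinset, hA, hD, Finset.mem_Ico]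
    constructor
    · rintro ⟨h1, h2⟩
      refine ⟨fun ν => (h1 ν).1, fun i ν => (h1 ν).2 i, fun i => ?_⟩
      refine Fin.cases rfl (fun j => ?_) i
      have := h2 j
      rw [Finset.sum_sub_distrib, sub_eq_zero] at this
      exact this
    · rintro ⟨h1, h2, h3⟩
      refine ⟨fun ν => ⟨h1 ν, fun i => h2 i ν⟩, fun j => ?_⟩
      rw [Finset.sum_sub_distrib, sub_eq_zero]
      exact h3 j.succ
  have h2 : ((eqd k R l y).card : ℝ) = ‖∫ α in Q, ∏ ν, Wv k R l y α ν‖ := by
    rw [hI]
    simp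
  rw [h2]
  refine (norm_integral_le_integral_norm _).trans_eq ?_
  apply integral_congr_ae
  filter_upwards with α
  rw [norm_prod]

end Pool.Agent.Helper42.KS.PkINT
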